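import Pool.Agent.Q172.UC.MedianStrict

/-!
# Poonen's strict inequality for the convex sets of finite median graphs

Let `M` be a finite set of Boolean vectors closed under the coordinatewise majority (the solution
sets of 2-SAT formulas, the finite median algebras, the vertex sets of finite median graphs in
their standard embedding in a hypercube). A subset `C` of `M` is convex if it contains every element
of `M` between two of its elements. For convex sets `C0 ⊊ C1` the sets `C1 \ C`, `C` convex,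
`C0 ⊆ C ⊆ C1`, form a union-closed family `A` with universe `C1 \ C0`.

1. Either `A` is closed under complements in `C1 \ C0` (so it consists of all unions of the blocks of
   a partition of `C1 \ C0`), or some element lies in strictly less than half of the convex sets
   between `C0` and `C1`, that is, in strictly more than half of the members of `A`.
2. Poonen's strengthening of the union-closed sets conjecture holds for `A`: if `A` is separating
   and not a power set, then some element lies in strictly more than half of its members.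

Proof of 1, for `C1 = M`. If `C0 = ∅` let `H` be a half space with the smallest number of elements;
convex sets `C ∋ v` are mapped to `g C` (with the injection `g` that exists for `H` by induction) if
`C ⊆ H` and to `C \ H` otherwise. If `M` has at least three elements, the complement of `H` has at
least two, and `{w}`, `w ∉ H` not the gate of `v`, is not in the image. If `C0 ≠ ∅`, let `H` be a
minimal half space disjoint from `C0` and let `v ∈ H`; the map is `C ↦ C \ H`, and `C0` is in its image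
only if the gate of `v` is in `C0`. If this is so for all `H` and `v`, then all half spaces disjoint
from `C0` are minimal and pairwise disjoint, and the convex sets containing `C0` are the unions of
`C0` and of some of them.
-/

set_option autoImplicit false

namespace Pool.Agent.Results.MP_75f39d_co.MedianConvexSets

universe u

/-- The majority of three bits. -/
def maj (a b c : Bool) : Bool := (a && b) || (b && c) || (c && a)

/-- `z` is between `x` and `y`: every coordinate of `z` is that of `x` or that of `y`. -/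
def Between {ι : Type u} (x z y : ι → Bool) : Prop := ∀ i, z i = x i ∨ z i = y i

/-- `M` is closed under the coordinatewise majority. -/
def MajClosed {ι : Type u} (M : Set (ι → Bool)) : Prop :=
  ∀ x ∈ M, ∀ y ∈ M, ∀ z ∈ M, (fun i => maj (x i) (y i) (z i)) ∈ M

/-- `C` is a convex subset of `M`. -/
def ConvexIn {ι : Type u} (M C : Set (ι → Bool)) : Prop :=
  C ⊆ M ∧ ∀ x ∈ C, ∀ y ∈ C, ∀ z ∈ M, Between x z y → z ∈ C

theorem fam {X : Type*} {G : Type*} [Finite X] [DecidableEq G] (cp : X → Finset G)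
    (hinj : Function.Injective cp) (A : Finset (Finset G)) (hA : ∀ Y, Y ∈ A ↔ ∃ x, cp x = Y) (g : G)
    (h : 2 * Nat.card {x : X // g ∉ cp x} < Nat.card X) :
    A.card < 2 * (A.filter fun Y => g ∈ Y).card := by
  classical
  have := Fintype.ofFinite X
  have hA1 : A = (Finset.univ : Finset X).image cp := by
    ext Y
    rw [hA]
    simp
  have c1 : A.card = Nat.card X := by
    rw [hA1, Finset.card_image_of_injective _ hinj, Nat.card_eq_fintype_card]
    rfl
  have hA2 : (A.filter fun Y => ¬ g ∈ Y) = (Finset.univ.filter fun x : X => g ∉ cp x).image cp := by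
    ext Y
    rw [Finset.mem_filter, hA, Finset.mem_image]
    constructor
    · rintro ⟨⟨x, rfl⟩, hx⟩
      exact ⟨x, by simpa using hx, rfl⟩
    · rintro ⟨x, hx, rfl⟩
      exact ⟨⟨x, rfl⟩, by simpa using hx⟩
  have c2 : (A.filter fun Y => ¬ g ∈ Y).card = Nat.card {x : X // g ∉ cp x} := by
    rw [hA2, Finset.card_image_of_injective _ hinj, Nat.card_eq_fintype_card, Fintype.card_subtype]
  have c3 := Finset.card_filter_add_card_filter_not (s := A) (fun Y => g ∈ Y)
  omega

theorem bool_power {α : Type*} [DecidableEq α] (A : Finset (Finset α)) (U : Finset α)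
    (hU : ∀ X ∈ A, X ⊆ U) (hun : ∀ X ∈ A, ∀ Y ∈ A, X ∪ Y ∈ A) (h0 : ∅ ∈ A)
    (hc : ∀ X ∈ A, U \ X ∈ A)
    (hsep : ∀ x ∈ U, ∀ y ∈ U, x ≠ y → ∃ X ∈ A, (x ∈ X ∧ y ∉ X) ∨ (x ∉ X ∧ y ∈ X)) :
    A = U.powerset := by
  have hsup : ∀ B : Finset (Finset α), B ⊆ A → B.sup id ∈ A := by
    intro B hB
    refine Finset.sup_induction (p := fun X => X ∈ A) h0 (fun a ha b hb => hun a ha b hb) ?_
    intro b hb
    exact hB hb
  have hsing : ∀ x ∈ U, {x} ∈ A := by
    intro x hx
    have h1 := hc _ (hsup (A.filter fun X => x ∉ X) (Finset.filter_subset _ _))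
    convert h1 using 1
    ext y
    rw [Finset.mem_singleton, Finset.mem_sdiff, Finset.mem_sup]
    constructor
    · rintro rfl
      refine ⟨hx, ?_⟩
      rintro ⟨X, hX, hy⟩
      exact (Finset.mem_filter.1 hX).2 hy
    · rintro ⟨hy, hy2⟩
      by_contra hne
      obtain ⟨X, hX, h⟩ := hsep x hx y hy (fun h => hne h.symm)
      rcases h with ⟨h3, h4⟩ | ⟨h3, h4⟩
      · refine hy2 ⟨U \ X, Finset.mem_filter.2 ⟨hc X hX, fun h => ?_⟩, ?_⟩
        · exact (Finset.mem_sdiff.1 h).2 h3
        · exact Finset.mem_sdiff.2 ⟨hy, h4⟩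
      · exact hy2 ⟨X, Finset.mem_filter.2 ⟨hX, h3⟩, h4⟩
  ext S
  rw [Finset.mem_powerset]
  refine ⟨hU S, fun hS => ?_⟩
  induction S using Finset.induction_on with
  | empty => exact h0
  | insert a s has ih =>
    rw [Finset.insert_eq]
    exact hun _ (hsing a (hS (Finset.mem_insert_self a s))) _
      (ih fun x hx => hS (Finset.mem_insert_of_mem hx))

theorem result :
    -- the lattice form, for every interval of the lattice of convex sets
    (∀ (ι : Type u) (M : Set (ι → Bool)), M.Finite → MajClosed M →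
      ∀ C0 C1 : Set (ι → Bool), ConvexIn M C0 → ConvexIn M C1 → C0 ⊂ C1 →
        (∀ C, ConvexIn M C → C0 ⊆ C → C ⊆ C1 → ConvexIn M ((C1 \ C) ∪ C0)) ∨
        ∃ v ∈ C1, v ∉ C0 ∧
          2 * Nat.card {C : Set (ι → Bool) // (ConvexIn M C ∧ C0 ⊆ C ∧ C ⊆ C1) ∧ v ∈ C} <
            Nat.card {C : Set (ι → Bool) // ConvexIn M C ∧ C0 ⊆ C ∧ C ⊆ C1}) ∧
    -- Poonen's strengthening for the families of the complements
    (∀ (ι : Type u) [DecidableEq (ι → Bool)] (M : Set (ι → Bool)), M.Finite → MajClosed M →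
      ∀ C0 C1 : Set (ι → Bool), ConvexIn M C0 → ConvexIn M C1 → C0 ⊂ C1 →
        ∀ A : Finset (Finset (ι → Bool)),
          (∀ X : Finset (ι → Bool), X ∈ A ↔
            ∃ C, (ConvexIn M C ∧ C0 ⊆ C ∧ C ⊆ C1) ∧ (X : Set (ι → Bool)) = C1 \ C) →
          -- `A` is separating
          (∀ x ∈ A.sup id, ∀ y ∈ A.sup id, x ≠ y →
            ∃ X ∈ A, (x ∈ X ∧ y ∉ X) ∨ (x ∉ X ∧ y ∈ X)) →
          -- `A` is not a power set
          A ≠ (A.sup id).powerset →
          (∀ X ∈ A, ∀ Y ∈ A, X ∪ Y ∈ A) ∧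
          ∃ v ∈ A.sup id, A.card < 2 * (A.filter fun X => v ∈ X).card) := by
  classical
  have part1 : ∀ (ι : Type u) (M : Set (ι → Bool)), M.Finite → MajClosed M →
      ∀ C0 C1 : Set (ι → Bool), ConvexIn M C0 → ConvexIn M C1 → C0 ⊂ C1 →
        (∀ C, ConvexIn M C → C0 ⊆ C → C ⊆ C1 → ConvexIn M ((C1 \ C) ∪ C0)) ∨
        ∃ v ∈ C1, v ∉ C0 ∧
          2 * Nat.card {C : Set (ι → Bool) // (ConvexIn M C ∧ C0 ⊆ C ∧ C ⊆ C1) ∧ v ∈ C} <
            Nat.card {C : Set (ι → Bool) // ConvexIn M C ∧ C0 ⊆ C ∧ C ⊆ C1} := by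
    intro ι M hf hM C0 C1 h0 h1 h01
    rcases Q172.UC.Med.strict C1 (hf.subset h1.1) (Q172.UC.Med.maj_conv (M := M) hM h1) C0
      (Q172.UC.Med.conv_restrict (M := M) h1 h0 h01.subset) h01.ne with h |
      ⟨v, hv, hv0, f, hf1, hf2, E, hE, hE0, hvE, hEne⟩
    · left
      intro C hC hC0 hC1
      exact Q172.UC.Med.conv_trans (M := M) h1
        (h C (Q172.UC.Med.conv_restrict (M := M) h1 hC hC1) hC0)
    right
    refine ⟨v, hv, hv0, ?_⟩
    have hres : ∀ C, ConvexIn M C ∧ C0 ⊆ C ∧ C ⊆ C1 → Q172.UC.Med.Conv C1 C := fun C hC =>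
      Q172.UC.Med.conv_restrict (M := M) h1 hC.1 hC.2.2
    have : Finite {C : Set (ι → Bool) // ConvexIn M C ∧ C0 ⊆ C ∧ C ⊆ C1} :=
      (hf.finite_subsets.subset fun C hC => hC.1.1).to_subtype
    have h3 := Q172.UC.Med.one_of_inj_strict
      (X := {C : Set (ι → Bool) // ConvexIn M C ∧ C0 ⊆ C ∧ C ⊆ C1}) (fun C => v ∈ C.1)
      (fun C => ⟨⟨f C.1.1, by
        obtain ⟨a, b, _⟩ := hf1 C.1.1 (hres _ C.1.2) C.1.2.2.1 C.2
        exact ⟨Q172.UC.Med.conv_trans (M := M) h1 a, b, a.1⟩⟩,
        (hf1 C.1.1 (hres _ C.1.2) C.1.2.2.1 C.2).2.2⟩)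
      (by
        intro C D h
        have h4 : f C.1.1 = f D.1.1 := congrArg (fun z => z.1.1) h
        exact Subtype.ext (Subtype.ext (hf2 _ _ (hres _ C.1.2) C.1.2.2.1 C.2 (hres _ D.1.2)
          D.1.2.2.1 D.2 h4)))
      ⟨⟨E, Q172.UC.Med.conv_trans (M := M) h1 hE, hE0, hE.1⟩, hvE⟩
      (by
        intro C h
        exact hEne C.1.1 (hres _ C.1.2) C.1.2.2.1 C.2 (congrArg (fun z => z.1.1) h))
    have e := Nat.card_congr (Equiv.subtypeSubtypeEquivSubtypeInter
      (fun C : Set (ι → Bool) => ConvexIn M C ∧ C0 ⊆ C ∧ C ⊆ C1) (fun C => v ∈ C))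
    rw [e] at h3
    exact h3
  refine ⟨part1, ?_⟩
  intro ι _ M hf hM C0 C1 h0 h1 h01 A hA hsep hnp
  have hfin : C1.Finite := hf.subset h1.1
  have hun : ∀ X ∈ A, ∀ Y ∈ A, X ∪ Y ∈ A := by
    intro X hX Y hY
    obtain ⟨C, hC, hXC⟩ := (hA X).1 hX
    obtain ⟨D, hD, hYD⟩ := (hA Y).1 hY
    refine (hA _).2 ⟨C ∩ D, ⟨⟨fun z hz => hC.1.1 hz.1, fun x hx y hy z hz hb =>
      ⟨hC.1.2 x hx.1 y hy.1 z hz hb, hD.1.2 x hx.2 y hy.2 z hz hb⟩⟩,
      fun z hz => ⟨hC.2.1 hz, hD.2.1 hz⟩, fun z hz => hC.2.2 hz.1⟩, ?_⟩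
    rw [Finset.coe_union, hXC, hYD, Set.sdiff_inter]
  have hUmem : (hfin.sdiff (t := C0)).toFinset ∈ A :=
    (hA _).2 ⟨C0, ⟨h0, subset_rfl, h01.subset⟩, by simp⟩
  have hUsub : ∀ X ∈ A, X ⊆ (hfin.sdiff (t := C0)).toFinset := by
    intro X hX
    obtain ⟨C, hC, hXC⟩ := (hA X).1 hX
    intro z hz
    rw [← Finset.mem_coe, hXC] at hz
    simp only [Set.Finite.mem_toFinset]
    exact ⟨hz.1, fun h => hz.2 (hC.2.1 h)⟩
  have hU : A.sup id = (hfin.sdiff (t := C0)).toFinset := by
    apply le_antisymm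
    · exact Finset.sup_le fun X hX => hUsub X hX
    · exact Finset.le_sup (f := id) hUmem
  refine ⟨hun, ?_⟩
  rcases part1 ι M hf hM C0 C1 h0 h1 h01 with hbool | ⟨v, hv, hv0, h3⟩
  · exfalso
    apply hnp
    rw [hU] at hsep ⊢
    refine bool_power A _ hUsub hun ((hA _).2 ⟨C1, ⟨h1, h01.subset, subset_rfl⟩, by simp⟩) ?_ hsep
    intro X hX
    obtain ⟨C, hC, hXC⟩ := (hA X).1 hX
    refine (hA _).2 ⟨(C1 \ C) ∪ C0, ⟨hbool C hC.1 hC.2.1 hC.2.2, Set.subset_union_right, ?_⟩, ?_⟩
    · exact Set.union_subset Set.sdiff_subset h01.subset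
    · rw [Finset.coe_sdiff, hXC]
      ext z
      simp only [Set.Finite.coe_toFinset, Set.mem_sdiff, Set.mem_union]
      tauto
  · refine ⟨v, ?_, ?_⟩
    · rw [hU]
      simp [hv, hv0]
    let X := {C : Set (ι → Bool) // ConvexIn M C ∧ C0 ⊆ C ∧ C ⊆ C1}
    have : Finite X := (hf.finite_subsets.subset fun C hC => hC.1.1).to_subtype
    let cp : X → Finset (ι → Bool) := fun C => (hfin.sdiff (t := C.1)).toFinset
    have hmem : ∀ (C : X) z, z ∈ cp C ↔ z ∈ C1 ∧ z ∉ C.1 := by
      intro C z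
      simp [cp]
    have hinj : Function.Injective cp := by
      intro C D h
      apply Subtype.ext
      ext z
      have h4 : z ∈ cp C ↔ z ∈ cp D := by rw [h]
      rw [hmem, hmem] at h4
      have h5 : z ∈ C.1 → z ∈ C1 := fun h => C.2.2.2 h
      have h6 : z ∈ D.1 → z ∈ C1 := fun h => D.2.2.2 h
      tauto
    refine fam cp hinj A (fun Y => ?_) v ?_
    · rw [hA]
      constructor
      · rintro ⟨C, hC, hY⟩
        refine ⟨⟨C, hC⟩, ?_⟩
        ext z
        rw [hmem, ← Finset.mem_coe, hY]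
        rfl
      · rintro ⟨C, rfl⟩
        refine ⟨C.1, C.2, ?_⟩
        ext z
        rw [Finset.mem_coe, hmem]
        rfl
    · have e : Nat.card {x : X // v ∉ cp x} =
          Nat.card {C : Set (ι → Bool) // (ConvexIn M C ∧ C0 ⊆ C ∧ C ⊆ C1) ∧ v ∈ C} := by
        rw [← Nat.card_congr (Equiv.subtypeSubtypeEquivSubtypeInter
          (fun C : Set (ι → Bool) => ConvexIn M C ∧ C0 ⊆ C ∧ C ⊆ C1) (fun C => v ∈ C))]
        apply Nat.card_congr
        refine Equiv.subtypeEquivRight fun C => ?_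
        rw [hmem]
        tauto
      rw [e]
      exact h3

end Pool.Agent.Results.MP_75f39d_co.MedianConvexSets
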