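import Pool.Agent.TH903.Semi.Family
import Pool.Agent.Q241.PN.Chain

/-!
# Poonen's conjecture for lattices with a maximal chain of modular elements

For a finite union-closed family `A` the poset `A ∪ {∅}`, ordered by inclusion, is a lattice `P`.
We prove Poonen's strict inequality if `P` has a maximal chain `⊤ = c 0 ⋗ c 1 ⋗ ⋯ ⋗ c k = ⊥` such
that each `c i` is left modular in the interval `[c (i + 1), ⊤]`. This holds if `P` is upper
semimodular, and if `P` has a maximal chain of left modular elements (for example, if `P` is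
supersolvable).
-/

set_option autoImplicit false

namespace Pool.Agent.Results.MP_75f39d_co.ModularChains

open OrderDual

/-- `m` is a left modular element of the lattice `P`. -/
def LeftModular {P : Type*} [Lattice P] (m : P) : Prop :=
  ∀ x b : P, x ≤ b → x ⊔ (m ⊓ b) = (x ⊔ m) ⊓ b

/-- `P` has a maximal chain, from `⊥` to `⊤`, of left modular elements. -/
def HasLeftModularChain (P : Type*) [Lattice P] [BoundedOrder P] : Prop :=
  ∃ (k : ℕ) (c : ℕ → P), c 0 = ⊥ ∧ c k = ⊤ ∧ ∀ i < k, c i ⋖ c (i + 1) ∧ LeftModular (c i)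

/-- `P` has a maximal chain `⊤ = c 0 ⋗ c 1 ⋗ ⋯ ⋗ c k = ⊥` such that each `c i` satisfies the
modular identity inside the interval `[c (i + 1), ⊤]`. -/
def HasRelativeChain (P : Type*) [Lattice P] [BoundedOrder P] : Prop :=
  ∃ (k : ℕ) (c : ℕ → P), c 0 = ⊤ ∧ c k = ⊥ ∧ ∀ i < k, c (i + 1) ⋖ c i ∧
    ∀ x b : P, x ≤ b → c (i + 1) ≤ x → x ⊔ (c i ⊓ b) = (x ⊔ c i) ⊓ b

theorem relative_dual {P : Type*} [Lattice P] [BoundedOrder P] (h : HasRelativeChain P) :
    Q241.PN.ModularChain Pᵒᵈ := by
  obtain ⟨k, c, h0, hk, hc⟩ := h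
  refine ⟨k, fun i => toDual (c i), congrArg toDual h0, congrArg toDual hk, fun i hi => ⟨?_, ?_⟩⟩
  · exact (hc i hi).1.toDual
  · intro b x hbx hx
    have h1 := (hc i hi).2 (ofDual x) (ofDual b) hbx hx
    change toDual ((ofDual b ⊓ c i) ⊔ ofDual x) = toDual (ofDual b ⊓ (c i ⊔ ofDual x))
    congr 1
    rw [inf_comm, sup_comm, h1, inf_comm, sup_comm (ofDual x)]

theorem leftModular_relative {P : Type*} [Lattice P] [BoundedOrder P]
    (h : HasLeftModularChain P) : HasRelativeChain P := by
  obtain ⟨k, c, h0, hk, hc⟩ := h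
  refine ⟨k, fun i => c (k - i), ?_, ?_, fun i hi => ⟨?_, ?_⟩⟩
  · simpa using hk
  · simpa using h0
  · have h1 := (hc (k - (i + 1)) (by omega)).1
    have h2 : k - (i + 1) + 1 = k - i := by omega
    rw [h2] at h1
    exact h1
  · intro x b hxb _
    change x ⊔ (c (k - i) ⊓ b) = (x ⊔ c (k - i)) ⊓ b
    rcases Nat.eq_zero_or_pos i with rfl | hi0
    · rw [Nat.sub_zero, hk, top_inf_eq, sup_top_eq, top_inf_eq, sup_eq_right.mpr hxb]
    · exact (hc (k - i) (by omega)).2 x b hxb

/-- Let `A` be a separating finite union-closed family which is not a power set, and let `P` be the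
lattice `A ∪ {∅}` ordered by inclusion. If `P` is upper semimodular, or has a maximal chain of left
modular elements, or, more generally, a maximal chain `⊤ = c 0 ⋗ ⋯ ⋗ c k = ⊥` with each `c i` left
modular in `[c (i + 1), ⊤]`, then some element of the universe lies in strictly more than half of
the members of `A`. -/
theorem result {α : Type*} [DecidableEq α] (A : Finset (Finset α)) (hne : A.Nonempty)
    (hU : ∀ X ∈ A, ∀ Y ∈ A, X ∪ Y ∈ A)
    (hsep : ∀ x ∈ A.sup id, ∀ y ∈ A.sup id, x ≠ y →
      ∃ S ∈ A, (x ∈ S ∧ y ∉ S) ∨ (y ∈ S ∧ x ∉ S))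
    (hpow : A ≠ (A.sup id).powerset)
    (P : Type*) [Lattice P] [BoundedOrder P]
    (e : {X : Finset α // X ∈ insert ∅ A} ≃o P)
    (h : IsUpperModularLattice P ∨ HasLeftModularChain P ∨ HasRelativeChain P) :
    ∃ x ∈ A.sup id, A.card < 2 * (A.filter (fun S => x ∈ S)).card := by
  classical
  have hfin : Finite P := Finite.of_equiv _ e.toEquiv
  have hchain : Q241.PN.ModularChain Pᵒᵈ := by
    rcases h with h | h | h
    · exact Q241.PN.chain_lower
    · exact relative_dual (leftModular_relative h)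
    · exact relative_dual h
  exact Pool.Agent.TH903.Semi.family A hne hU hsep hpow Pᵒᵈ
    (e.trans (OrderIso.dualDual P)) (Q241.PN.chain_strict hchain)

end Pool.Agent.Results.MP_75f39d_co.ModularChains
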