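import Pool.Agent.TH903.Semi.Family
import Pool.Agent.Q241.PN.Grp

/-!
# Poonen's conjecture for subgroup lattices of finite solvable groups

Let `A` be a separating finite union-closed family which is not a power set. If `A ∪ {∅}`, ordered by
inclusion, is isomorphic to the subgroup lattice of a finite solvable group, or to its dual, then
some element of the universe lies in strictly more than half of the members.
-/

set_option autoImplicit false

namespace Pool.Agent.Results.MP_75f39d_co.SolvableSubgroupLattices

open OrderDual

/-- Let `A` be a separating finite union-closed family which is not a power set, and let `G` be a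
finite solvable group. If the poset `A ∪ {∅}` (ordered by inclusion) is isomorphic to the lattice of
subgroups of `G`, or to the dual of this lattice, then some element of the universe lies in strictly
more than half of the members of `A`. -/
theorem result {α : Type*} [DecidableEq α] (A : Finset (Finset α)) (hne : A.Nonempty)
    (hU : ∀ X ∈ A, ∀ Y ∈ A, X ∪ Y ∈ A)
    (hsep : ∀ x ∈ A.sup id, ∀ y ∈ A.sup id, x ≠ y →
      ∃ S ∈ A, (x ∈ S ∧ y ∉ S) ∨ (y ∈ S ∧ x ∉ S))
    (hpow : A ≠ (A.sup id).powerset)
    (G : Type*) [Group G] [Finite G] [Group.IsSolvable G]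
    (h : Nonempty ({X : Finset α // X ∈ insert ∅ A} ≃o Subgroup G) ∨
      Nonempty ({X : Finset α // X ∈ insert ∅ A} ≃o (Subgroup G)ᵒᵈ)) :
    ∃ x ∈ A.sup id, A.card < 2 * (A.filter (fun S => x ∈ S)).card := by
  classical
  rcases h with ⟨⟨e⟩⟩ | ⟨⟨e⟩⟩
  · exact Pool.Agent.TH903.Semi.family A hne hU hsep hpow (Subgroup G)ᵒᵈ
      (e.trans (OrderIso.dualDual (Subgroup G))) (Q241.PN.strict_dual G)
  · exact Pool.Agent.TH903.Semi.family A hne hU hsep hpow (Subgroup G) e (Q241.PN.strict_sub G)

end Pool.Agent.Results.MP_75f39d_co.SolvableSubgroupLattices
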