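import Pool.Agent.Q172.UC.Cover
import Pool.Agent.Q172.UC.Moebius

/-!
# Poonen's conjecture when the upper covers of every member have union `U`

Let `A` be a nonempty finite union-closed family with union `U`, and assume that every member `X ≠ U`
satisfies: the upper covers of `X` in `(A, ⊆)` have union `U`. Then every element of `U` lies in at
least half of the members, and if `A` is separating and not a power set, then some element lies in
strictly more than half of the members.

The hypothesis holds if the Moebius numbers `m(X,U)`, `X ∈ A`, are all different from zero, and also if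
all upper intervals `[X,U]` of `(A, ⊆)` are complemented.

Proof. For an element `i` map a member `X` avoiding `i` to an upper cover `W i X` containing `i`. As `X` is
the largest member avoiding `i` inside `W i X`, this is injective. If no element lies in more than
half of the members, all these maps are bijections, so there is a smallest member, `B` say (`B = ∅`), and
the same holds for all upper intervals; by induction all sets between a member `X ≠ B` and `U` are
members, and every `i` is pivotal for the up-set of the members `≠ B` at exactly one place. If `T` is a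
minimal member `≠ B` with at least two elements `i, j` outside `B`, `T ≠ U`, then a `k` outside `T` is
pivotal at two places, `T - i` and `T - j`.
-/

set_option autoImplicit false

namespace Pool.Agent.Results.MP_75f39d_co.UpperCovers

universe u

/-- `W` is an upper cover of `X` in `(A, ⊆)`. -/
def UpperCover {α : Type u} [DecidableEq α] (A : Finset (Finset α)) (X W : Finset α) : Prop :=
  W ∈ A ∧ X ⊂ W ∧ ∀ Z ∈ A, X ⊂ Z → Z ⊆ W → Z = W

/-- The upper covers of every member `X` of `A` have union `A.sup id`, except for `X = A.sup id`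
(which has none). -/
def FullCovers {α : Type u} [DecidableEq α] (A : Finset (Finset α)) : Prop :=
  ∀ X ∈ A, ∀ i ∈ A.sup id, i ∉ X → ∃ W, UpperCover A X W ∧ i ∈ W

/-- `m X` is the Moebius number `m(X,U)` of the poset `(A, ⊆)`, `U = A.sup id`. -/
def IsMoebius {α : Type u} [DecidableEq α] (A : Finset (Finset α)) (m : Finset α → ℤ) : Prop :=
  m (A.sup id) = 1 ∧
    ∀ X ∈ A, X ≠ A.sup id → ∑ Y ∈ A.filter (fun Y => X ⊆ Y), m Y = 0

/-- All upper intervals `[X,U]` of `(A, ⊆)`, `U = A.sup id`, are complemented. -/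
def UpperComplemented {α : Type u} [DecidableEq α] (A : Finset (Finset α)) : Prop :=
  ∀ X ∈ A, ∀ Y ∈ A, X ⊆ Y → ∃ Z ∈ A, X ⊆ Z ∧ Y ∪ Z = A.sup id ∧
    ∀ V ∈ A, X ⊆ V → V ⊆ Y → V ⊆ Z → V = X

theorem exists_cover {α : Type u} [DecidableEq α] (A : Finset (Finset α)) (X Y : Finset α)
    (hY : Y ∈ A) (h : X ⊂ Y) : ∃ W, UpperCover A X W ∧ W ⊆ Y := by
  classical
  obtain ⟨W, hW, hmin⟩ := (A.filter fun Z => X ⊂ Z ∧ Z ⊆ Y).exists_min_image (fun Z => Z.card)
    ⟨Y, Finset.mem_filter.2 ⟨hY, h, subset_rfl⟩⟩
  rw [Finset.mem_filter] at hW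
  refine ⟨W, ⟨hW.1, hW.2.1, fun Z hZ hXZ hZW => ?_⟩, hW.2.2⟩
  exact Finset.eq_of_subset_of_card_le hZW
    (hmin Z (Finset.mem_filter.2 ⟨hZ, hXZ, hZW.trans hW.2.2⟩))

theorem sup_mem {α : Type u} [DecidableEq α] (A : Finset (Finset α))
    (huc : ∀ X ∈ A, ∀ Y ∈ A, X ∪ Y ∈ A) (s : Finset (Finset α)) (hs : s ⊆ A) (hne : s.Nonempty) :
    s.sup id ∈ A := by
  induction hne using Finset.Nonempty.cons_induction with
  | singleton a => simpa using hs (Finset.mem_singleton_self a)
  | cons a s ha hs' ih =>
    rw [Finset.sup_cons]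
    exact huc _ (hs (Finset.mem_cons_self a s)) _ (ih fun x hx => hs (Finset.mem_cons_of_mem hx))

theorem result :
    (∀ (α : Type u) [DecidableEq α] (A : Finset (Finset α)), A.Nonempty →
      (∀ X ∈ A, ∀ Y ∈ A, X ∪ Y ∈ A) → FullCovers A →
      -- every element of the universe lies in at least half of the members
      (∀ i ∈ A.sup id, A.card ≤ 2 * (A.filter fun X => i ∈ X).card) ∧
      -- Poonen's strengthening
      ((∀ x ∈ A.sup id, ∀ y ∈ A.sup id, x ≠ y → ∃ X ∈ A, (x ∈ X ∧ y ∉ X) ∨ (x ∉ X ∧ y ∈ X)) →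
        A ≠ (A.sup id).powerset →
        ∃ i ∈ A.sup id, A.card < 2 * (A.filter fun X => i ∈ X).card)) ∧
    -- two cases in which the hypothesis holds
    (∀ (α : Type u) [DecidableEq α] (A : Finset (Finset α)), A.Nonempty →
      (∀ X ∈ A, ∀ Y ∈ A, X ∪ Y ∈ A) →
      ((∃ m, IsMoebius A m ∧ ∀ X ∈ A, m X ≠ 0) ∨ UpperComplemented A) → FullCovers A) := by
  classical
  refine ⟨?_, ?_⟩
  · intro α _ A hne huc hcov
    have hU : A.sup id ∈ A := sup_mem A huc A subset_rfl hne
    have hsub : ∀ X ∈ A, X ⊆ A.sup id := fun X hX => Finset.le_sup (f := id) hX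
    have hcov' : ∀ X ∈ A, ∀ i ∈ A.sup id, i ∉ X → ∃ W ∈ A, X ⊆ W ∧ i ∈ W ∧
        ∀ Z ∈ A, X ⊆ Z → Z ⊆ W → i ∉ Z → Z = X := by
      intro X hX i hi hiX
      obtain ⟨W, ⟨h1, h2, h3⟩, h4⟩ := hcov X hX i hi hiX
      refine ⟨W, h1, h2.1, h4, ?_⟩
      intro Z hZ hXZ hZW hiZ
      by_contra hne
      have := h3 Z hZ ⟨hXZ, fun h => hne (Finset.Subset.antisymm h hXZ)⟩ hZW
      exact hiZ (this ▸ h4)
    have habund : ∀ i ∈ A.sup id,
        (A.filter fun X => i ∉ X).card ≤ (A.filter fun X => i ∈ X).card := by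
      intro i hi
      choose! W hWA hXW hiW hWm using fun X hX hiX => hcov' X hX i hi hiX
      refine Finset.card_le_card_of_injOn W ?_ ?_
      · intro X hX
        rw [Finset.mem_coe, Finset.mem_filter] at hX ⊢
        exact ⟨hWA X hX.1 hX.2, hiW X hX.1 hX.2⟩
      · intro X hX X' hX' h
        rw [Finset.mem_coe, Finset.mem_filter] at hX hX'
        have h1 := hWm X hX.1 hX.2 (X ∪ X') (huc X hX.1 X' hX'.1) Finset.subset_union_left
          (Finset.union_subset (hXW X hX.1 hX.2) (by rw [h]; exact hXW X' hX'.1 hX'.2)) (by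
            rw [Finset.mem_union]; tauto)
        have h2 := hWm X' hX'.1 hX'.2 (X ∪ X') (huc X hX.1 X' hX'.1) Finset.subset_union_right
          (Finset.union_subset (by rw [← h]; exact hXW X hX.1 hX.2) (hXW X' hX'.1 hX'.2)) (by
            rw [Finset.mem_union]; tauto)
        exact h1.symm.trans h2
    have hsplit : ∀ i, (A.filter fun X => i ∈ X).card + (A.filter fun X => i ∉ X).card = A.card :=
      fun i => Finset.card_filter_add_card_filter_not (s := A) (fun X => i ∈ X)
    refine ⟨fun i hi => ?_, ?_⟩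
    · have := habund i hi
      have := hsplit i
      omega
    · intro hsep hnp
      by_contra hcon
      push Not at hcon
      apply hnp
      ext Z
      rw [Finset.mem_powerset]
      refine ⟨fun hZ => hsub Z hZ, fun hZ => ?_⟩
      refine Q172.UC.Cov.main (A.sup id) A.card A ∅ le_rfl hU
        (fun X hX => ⟨Finset.empty_subset _, hsub X hX⟩) huc
        (fun x hx _ y hy _ hne => hsep x hx y hy hne) hcov' ?_ Z (Finset.empty_subset _) hZ
      intro i hi _
      have := hcon i hi
      have := hsplit i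
      omega
  · intro α _ A hne huc h X hX i hi hiX
    have hU : A.sup id ∈ A := sup_mem A huc A subset_rfl hne
    have hsub : ∀ X ∈ A, X ⊆ A.sup id := fun X hX => Finset.le_sup (f := id) hX
    rcases h with ⟨m, hm, hm0⟩ | h
    · let r : Finset α → Finset α := fun Y => (A.filter fun Z => Z ⊆ Y ∧ i ∉ Z).sup id
      have hw := Q172.UC.Moe.weisner A (A.sup id) huc m hm.2 i hi r (fun _ => rfl) X hX hiX
      have hrX : r X = X := by
        apply le_antisymm
        · exact Finset.sup_le fun Z hZ => (Finset.mem_filter.1 hZ).2.1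
        · exact Finset.le_sup (f := id) (Finset.mem_filter.2 ⟨hX, subset_rfl, hiX⟩)
      have hex : ∃ Y ∈ A, r Y = X ∧ X ⊂ Y := by
        by_contra hcon
        push Not at hcon
        have : A.filter (fun Y => r Y = X ∧ X ⊆ Y) = {X} := by
          ext Y
          rw [Finset.mem_filter, Finset.mem_singleton]
          constructor
          · rintro ⟨hY, h1, h2⟩
            by_contra hne
            exact hcon Y hY h1 ⟨h2, fun h3 => hne (Finset.Subset.antisymm h3 h2)⟩
          · rintro rfl
            exact ⟨hX, hrX, subset_rfl⟩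
        rw [this, Finset.sum_singleton] at hw
        exact hm0 X hX hw
      obtain ⟨Y, hY, hrY, hXY⟩ := hex
      obtain ⟨W, hW, hWY⟩ := exists_cover A X Y hY hXY
      refine ⟨W, hW, ?_⟩
      by_contra hiW
      have h1 : W ⊆ r Y := Finset.le_sup (f := id) (Finset.mem_filter.2 ⟨hW.1, hWY, hiW⟩)
      rw [hrY] at h1
      exact hW.2.1.2 h1
    · let C : Finset (Finset α) := A.filter fun W => UpperCover A X W
      have hXU : X ⊂ A.sup id := ⟨hsub X hX, fun h => hiX (h hi)⟩
      obtain ⟨W0, hW0, -⟩ := exists_cover A X _ hU hXU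
      have hCne : C.Nonempty := ⟨W0, Finset.mem_filter.2 ⟨hW0.1, hW0⟩⟩
      have hCA : C.sup id ∈ A := sup_mem A huc C (Finset.filter_subset _ _) hCne
      have hle : ∀ W, UpperCover A X W → W ⊆ C.sup id := fun W hW =>
        Finset.le_sup (f := id) (Finset.mem_filter.2 ⟨hW.1, hW⟩)
      obtain ⟨Z, hZ, hXZ, hZU, hmeet⟩ := h X hX (C.sup id) hCA (hW0.2.1.1.trans (hle W0 hW0))
      by_cases hXZ' : Z = X
      · rw [hXZ'] at hZU
        have h1 : C.sup id = A.sup id := by
          rw [← hZU]
          exact (Finset.union_eq_left.2 (hW0.2.1.1.trans (hle W0 hW0))).symm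
        rw [← h1, Finset.mem_sup] at hi
        obtain ⟨W, hW, hiW⟩ := hi
        exact ⟨W, (Finset.mem_filter.1 hW).2, hiW⟩
      · exfalso
        obtain ⟨W, hW, hWZ⟩ := exists_cover A X Z hZ
          ⟨hXZ, fun h => hXZ' (Finset.Subset.antisymm h hXZ)⟩
        have := hmeet W hW.1 hW.2.1.1 (hle W hW) hWZ
        exact hW.2.1.ne this.symm

end Pool.Agent.Results.MP_75f39d_co.UpperCovers
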